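import Mathlib
import Pool.Agent.Helper58.FX.Defs

set_option autoImplicit false
set_option linter.unusedSectionVars false
open MeasureTheory Filter Topology
open scoped InnerProductSpace ComplexConjugate ENNReal

/-! FX-4: the mean ergodic theorem for two commuting isometries, with eigenvalues -/

namespace Pool.Agent.Helper61.FX
open Helper58.FX

variable {H : Type*} [NormedAddCommGroup H] [InnerProductSpace ℂ H]

/-- averages of an operator -/
noncomputable def av (A : H →L[ℂ] H) (N : ℕ) (v : H) : H :=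
  (N : ℂ)⁻¹ • ∑ i ∈ Finset.range N, (A ^ i) v

lemma av_eq (A : H →L[ℂ] H) (N : ℕ) (v : H) : av A N v = birkhoffAverage ℂ A _root_.id N v := by
  unfold av birkhoffAverage birkhoffSum
  simp only [FunLike.coe_pow_eq_iterate]
  rfl

lemma norm_pow_apply_le {A : H →L[ℂ] H} (hA : ∀ v, ‖A v‖ ≤ ‖v‖) (i : ℕ) (v : H) :
    ‖(A ^ i) v‖ ≤ ‖v‖ := by
  induction i with
  | zero => simp
  | succ i ih =>
    rw [pow_succ']
    exact (hA _).trans ih

lemma norm_av_le {A : H →L[ℂ] H} (hA : ∀ v, ‖A v‖ ≤ ‖v‖) (N : ℕ) (v : H) : ‖av A N v‖ ≤ ‖v‖ := by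
  unfold av
  rcases Nat.eq_zero_or_pos N with rfl | hN
  · simp
  have hN' : (0 : ℝ) < N := by exact_mod_cast hN
  rw [norm_smul, norm_inv, Complex.norm_natCast]
  have h1 : ‖∑ i ∈ Finset.range N, (A ^ i) v‖ ≤ N * ‖v‖ := by
    refine (norm_sum_le _ _).trans ?_
    refine (Finset.sum_le_sum fun i _ => norm_pow_apply_le hA i v).trans ?_
    rw [Finset.sum_const, Finset.card_range, nsmul_eq_mul]
  calc (N : ℝ)⁻¹ * ‖∑ i ∈ Finset.range N, (A ^ i) v‖ ≤ (N : ℝ)⁻¹ * (N * ‖v‖) :=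
        mul_le_mul_of_nonneg_left h1 (by positivity)
    _ = ‖v‖ := by rw [← mul_assoc, inv_mul_cancel₀ hN'.ne', one_mul]

lemma av_sub (A : H →L[ℂ] H) (N : ℕ) (v w : H) : av A N (v - w) = av A N v - av A N w := by
  unfold av
  simp only [map_sub, Finset.sum_sub_distrib, smul_sub]

lemma av_comm {A B : H →L[ℂ] H} (h : Commute A B) (N : ℕ) (v : H) :
    B (av A N v) = av A N (B v) := by
  unfold av
  rw [map_smul, map_sum]
  congr 1
  refine Finset.sum_congr rfl fun i _ => ?_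
  have h1 : (B * A ^ i) v = (A ^ i * B) v := by rw [(h.symm.pow_right i).eq]
  exact h1

variable [CompleteSpace H]

/-- one operator -/
lemma tendsto_av {A : H →L[ℂ] H} (hA : ∀ v, ‖A v‖ ≤ ‖v‖) (v : H) :
    ∃ P : H, Tendsto (fun N => av A N v) atTop (𝓝 P) ∧ A P = P ∧
      ∀ w, A w = w → ⟪v - P, w⟫_ℂ = 0 := by
  have hA' : ‖A‖ ≤ 1 := A.opNorm_le_bound zero_le_one (fun v => by rw [one_mul]; exact hA v)
  have h1 := A.tendsto_birkhoffAverage_orthogonalProjection hA' v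
  refine ⟨((A.eqLocus (1 : H →L[ℂ] H)).orthogonalProjectionOnto v : H), ?_, ?_, ?_⟩
  · simp only [av_eq]
    exact h1
  · exact ((A.eqLocus (1 : H →L[ℂ] H)).orthogonalProjectionOnto v).2
  · intro w hw
    exact Submodule.starProjection_inner_eq_zero (K := A.eqLocus (1 : H →L[ℂ] H)) v w hw

/-- two operators -/
lemma tendsto_av2 {A B : H →L[ℂ] H} (hA : ∀ v, ‖A v‖ ≤ ‖v‖) (hB : ∀ v, ‖B v‖ ≤ ‖v‖)
    (hAB : Commute A B) (v : H) :
    ∃ P : H, Tendsto (fun N => av A N (av B N v)) atTop (𝓝 P) ∧ A P = P ∧ B P = P ∧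
      ∀ w, A w = w → B w = w → ⟪v - P, w⟫_ℂ = 0 := by
  obtain ⟨Q, hQ1, hQ2, hQ3⟩ := tendsto_av hB v
  obtain ⟨P, hP1, hP2, hP3⟩ := tendsto_av hA Q
  refine ⟨P, ?_, hP2, ?_, ?_⟩
  · have h1 : Tendsto (fun N => av A N (av B N v) - av A N Q) atTop (𝓝 0) := by
      rw [tendsto_zero_iff_norm_tendsto_zero]
      have h2 : Tendsto (fun N => ‖av B N v - Q‖) atTop (𝓝 0) := by
        rw [← tendsto_iff_norm_sub_tendsto_zero]
        exact hQ1
      refine squeeze_zero (fun _ => norm_nonneg _) (fun N => ?_) h2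
      rw [← av_sub]
      exact norm_av_le hA N _
    have h3 := h1.add hP1
    simpa using h3
  · have h1 : Tendsto (fun N => B (av A N Q)) atTop (𝓝 (B P)) :=
      (B.continuous.tendsto P).comp hP1
    have h2 : (fun N => B (av A N Q)) = fun N => av A N Q := by
      funext N
      rw [av_comm hAB, hQ2]
    rw [h2] at h1
    exact tendsto_nhds_unique h1 hP1
  · intro w hwA hwB
    have h1 : v - P = (v - Q) + (Q - P) := by abel
    rw [h1, inner_add_left, hQ3 w hwB, hP3 w hwA, add_zero]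

variable {U V : H →ₗᵢ[ℂ] H}

/-- the twisted operator -/
noncomputable def tw (α : ℂ) (U : H →ₗᵢ[ℂ] H) : H →L[ℂ] H := (conj α) • U.toContinuousLinearMap

lemma tw_apply (α : ℂ) (U : H →ₗᵢ[ℂ] H) (v : H) : tw α U v = (conj α) • U v := rfl

lemma tw_pow (α : ℂ) (U : H →ₗᵢ[ℂ] H) (i : ℕ) (v : H) :
    (tw α U ^ i) v = (conj α) ^ i • (U ^ i) v := by
  induction i with
  | zero => simp
  | succ i ih =>
    rw [pow_succ', pow_succ' U i]
    change tw α U ((tw α U ^ i) v) = _ • U ((U ^ i) v)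
    rw [ih, tw_apply, map_smul, smul_smul, ← pow_succ']

lemma tw_fix {α : ℂ} (hα : ‖α‖ = 1) {U : H →ₗᵢ[ℂ] H} {v : H} : tw α U v = v ↔ U v = α • v := by
  have h1 : conj α * α = 1 := by
    rw [Complex.conj_mul', hα]
    simp
  rw [tw_apply]
  constructor
  · intro h
    have h2 : α • (conj α • U v) = α • v := by rw [h]
    rwa [smul_smul, mul_comm, h1, one_smul] at h2
  · intro h
    rw [h, smul_smul, h1, one_smul]

lemma tw_commute {α β : ℂ} (h : Commute U V) : Commute (tw α U) (tw β V) := by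
  apply ContinuousLinearMap.ext
  intro v
  change tw α U (tw β V v) = tw β V (tw α U v)
  simp only [tw_apply, map_smul]
  have h1 : U (V v) = V (U v) := by
    have h2 := congrArg (fun f : H →ₗᵢ[ℂ] H => f v) h.eq
    exact h2
  rw [h1, smul_smul, smul_smul, mul_comm]

/-- FX-4 -/
theorem mean_ergodic (hUV : Commute U V) {α β : ℂ} (hα : ‖α‖ = 1) (hβ : ‖β‖ = 1) (v : H) :
    Tendsto (fun N : ℕ => ((N : ℂ) ^ 2)⁻¹ •
      ∑ s ∈ box N, ((conj α) ^ s.1 * (conj β) ^ s.2) • act U V s v) atTop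
      (𝓝 (PE U V α β v)) := by
  have hA : ∀ v, ‖tw α U v‖ ≤ ‖v‖ := by
    intro v
    rw [tw_apply, norm_smul, RCLike.norm_conj, hα, one_mul, U.norm_map]
  have hB : ∀ v, ‖tw β V v‖ ≤ ‖v‖ := by
    intro v
    rw [tw_apply, norm_smul, RCLike.norm_conj, hβ, one_mul, V.norm_map]
  obtain ⟨P, hP1, hP2, hP3, hP4⟩ := tendsto_av2 hA hB (tw_commute hUV) v
  have hP : PE U V α β v = P := by
    unfold PE
    apply (Submodule.eq_starProjection_of_mem_of_inner_eq_zero (K := Eg U V α β) ?_ ?_)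
    · exact ⟨(tw_fix hα).1 hP2, (tw_fix hβ).1 hP3⟩
    · rintro w ⟨h1, h2⟩
      exact hP4 w ((tw_fix hα).2 h1) ((tw_fix hβ).2 h2)
  rw [hP]
  refine hP1.congr fun N => ?_
  unfold av box
  rw [Finset.sum_product]
  simp only [map_smul, map_sum, tw_pow, ← Finset.smul_sum]
  rw [smul_smul, ← sq, inv_pow]
  congr 1
  refine Finset.sum_congr rfl fun i _ => ?_
  refine Finset.sum_congr rfl fun j _ => ?_
  rw [smul_smul, mul_comm]
  rfl

end Pool.Agent.Helper61.FX
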